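import Pool.Agent.R5.GC.Heap

/-!
# MP_c9f8d2_co: order of growth of the game colouring number of powers of partial k-trees
-/

namespace Pool.Agent.Results.MP_c9f8d2_co.GamePower

open Pool.Agent.R5.GC

/-- `f_{k,m}(Δ)`: the supremum of the game colouring numbers of the `m`-th powers of the partial
`k`-trees of maximum degree at most `Δ` (a finite graph is taken with vertex set `{0, …, n-1}`). -/
noncomputable def f (k m Δ : ℕ) : ℕ∞ :=
  ⨆ (n : ℕ) (G : SimpleGraph (Fin n))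
    (_ : IsPartialKTree k G ∧ ∀ v, (G.neighborSet v).ncard ≤ Δ), (colg (gpow G m) : ℕ∞)

theorem upper (k m Δ n : ℕ) (hΔ : 2 ≤ Δ) (G : SimpleGraph (Fin n)) (hG : IsPartialKTree k G)
    (hd : ∀ v, (G.neighborSet v).ncard ≤ Δ) :
    colg (gpow G m) ≤ (3 * (k + 1) ^ (3 * m) * 2 ^ (m / 2) + 3) * Δ ^ (m / 2) := by
  rcases Nat.eq_zero_or_pos n with hn | hn
  · subst hn
    have : colg (gpow G m) = 0 := by
      unfold colg
      have : {s | Guarantees (gpow G m) s} = ∅ := by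
        ext s
        simp only [Set.mem_ofPred_eq, Set.mem_empty_iff_false, iff_false]
        rintro ⟨σ, _⟩
        exact (σ []).elim0
      rw [this]
      exact Nat.sInf_empty
    rw [this]
    exact Nat.zero_le _
  · have : Nonempty (Fin n) := ⟨⟨0, hn⟩⟩
    obtain ⟨r, hr, hρ⟩ := exists_ranking k m Δ G hG hd
    have h1 := colg_le (activation (gpow G m) r hr _ hρ)
    refine h1.trans ?_
    have h2 : (Δ + 1) ^ (m / 2) ≤ (2 * Δ) ^ (m / 2) := Nat.pow_le_pow_left (by omega) _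
    rw [mul_pow] at h2
    have h3 : 1 ≤ Δ ^ (m / 2) := Nat.one_le_pow _ _ (by omega)
    calc 3 * ((k + 1) ^ (3 * m) * (Δ + 1) ^ (m / 2)) + 3
        ≤ 3 * ((k + 1) ^ (3 * m) * (2 ^ (m / 2) * Δ ^ (m / 2))) + 3 * Δ ^ (m / 2) := by
          gcongr
          omega
      _ = (3 * (k + 1) ^ (3 * m) * 2 ^ (m / 2) + 3) * Δ ^ (m / 2) := by ring

/-- For fixed `k ≥ 1` and `m`, `f_{k,m}(Δ) = Θ(Δ^⌊m/2⌋)`. -/
theorem result (k m : ℕ) (hk : 1 ≤ k) :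
    ∃ c C : ℕ, 0 < c ∧ 0 < C ∧ ∀ Δ : ℕ, 2 ≤ Δ →
      ((Δ ^ (m / 2) : ℕ) : ℕ∞) ≤ c * f k m Δ ∧ f k m Δ ≤ ((C * Δ ^ (m / 2) : ℕ) : ℕ∞) := by
  refine ⟨2 ^ (m / 2), 3 * (k + 1) ^ (3 * m) * 2 ^ (m / 2) + 3, by positivity, by positivity, ?_⟩
  intro Δ hΔ
  constructor
  · obtain ⟨n, G, hG, hd, h⟩ := lower k m Δ hk hΔ
    have h1 : ((colg (gpow G m) : ℕ) : ℕ∞) ≤ f k m Δ := by
      unfold f
      exact le_iSup_of_le n (le_iSup_of_le G (le_iSup_of_le ⟨hG, hd⟩ le_rfl))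
    have h2 : Δ ^ (m / 2) ≤ 2 ^ (m / 2) * colg (gpow G m) := by
      calc Δ ^ (m / 2) ≤ (2 * (Δ - 1)) ^ (m / 2) := Nat.pow_le_pow_left (by omega) _
        _ = 2 ^ (m / 2) * (Δ - 1) ^ (m / 2) := mul_pow _ _ _
        _ ≤ 2 ^ (m / 2) * colg (gpow G m) := Nat.mul_le_mul_left _ h
    calc ((Δ ^ (m / 2) : ℕ) : ℕ∞) ≤ ((2 ^ (m / 2) * colg (gpow G m) : ℕ) : ℕ∞) := by
          exact_mod_cast h2
      _ = ((2 ^ (m / 2) : ℕ) : ℕ∞) * (colg (gpow G m) : ℕ∞) := by push_cast; rfl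
      _ ≤ ((2 ^ (m / 2) : ℕ) : ℕ∞) * f k m Δ := by gcongr
  · unfold f
    refine iSup_le fun n => iSup_le fun G => iSup_le fun hG => ?_
    exact_mod_cast upper k m Δ n hΔ G hG.1 hG.2

end Pool.Agent.Results.MP_c9f8d2_co.GamePower
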